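import Mathlib

/-! Central values and mollifiers: averages over finite families, and the criterion. -/

set_option autoImplicit false

namespace Pool.Agent.U857.CV

open Filter Topology Finset

noncomputable section

/-- `N → ∞` through the primes -/
def primes : Filter ℕ := atTop ⊓ 𝓟 {N | N.Prime}

variable {H : ℕ → Type} [∀ N, Fintype (H N)]

/-- The average of `g` over the family `H N` with the weights `ω N`. -/
def av (ω : ∀ N, H N → ℝ) (N : ℕ) (g : H N → ℝ) : ℝ := ∑ f, ω N f * g f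

open Classical in
/-- The indicator function of `L(f) > (log N) ^ (-A)`. -/
def big (L : ∀ N, H N → ℝ) (A : ℝ) (N : ℕ) (f : H N) : ℝ := if Real.log N ^ (-A) < L N f then 1 else 0

/-- The proportion `p_A(N)` (with the weights `ω`) of the `f` with `L(f) > (log N) ^ (-A)`. -/
def prop (ω L : ∀ N, H N → ℝ) (A : ℝ) (N : ℕ) : ℝ := av ω N (big L A N)

/-- The lower limit of `p_A(N)` for primes `N → ∞` is greater than `1/2`. -/
def MoreThanHalf (ω L : ∀ N, H N → ℝ) (A : ℝ) : Prop := ∃ c : ℝ, 0 < c ∧ ∀ᶠ N in primes, 1 / 2 + c ≤ prop ω L A N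

/-- `M` is a mollifier with second moment at most `2 + η`: the average of `L M` tends to `1`, that of `(L M) ^ 2` is at most
`2 + η` and that of `M ^ 2` at most `(log N) ^ B`, for large primes `N`. -/
structure Mollifier (ω L : ∀ N, H N → ℝ) (B η : ℝ) (M : ∀ N, H N → ℝ) : Prop where
  first : Tendsto (fun N => av ω N fun f => L N f * M N f) primes (𝓝 1)
  second : ∀ᶠ N in primes, (av ω N fun f => (L N f * M N f) ^ 2) ≤ 2 + η
  size : ∀ᶠ N in primes, (av ω N fun f => M N f ^ 2) ≤ Real.log N ^ B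

/-- The known properties: for large primes `N` the weights are non-negative with sum `1`, the central values are non-negative,
and for every `η > 0` there is a mollifier with second moment at most `2 + η` (Iwaniec and Sarnak). -/
structure Known (ω L : ∀ N, H N → ℝ) (B : ℝ) : Prop where
  weight : ∀ᶠ N in primes, (∀ f, 0 ≤ ω N f) ∧ ∑ f, ω N f = 1
  nonneg : ∀ᶠ N in primes, ∀ f, 0 ≤ L N f
  mollifier : ∀ η : ℝ, 0 < η → ∃ M : ∀ N, H N → ℝ, Mollifier ω L B η M

/-- The mean square distance of the mollified values from the function with the values `2` (where `L(f) > (log N) ^ (-A)`) and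
`0` (elsewhere). -/
def dist2 (ω L : ∀ N, H N → ℝ) (A : ℝ) (M : ∀ N, H N → ℝ) (N : ℕ) : ℝ :=
  av ω N fun f => (L N f * M N f - 2 * big L A N f) ^ 2

variable {ω L : ∀ N, H N → ℝ} {A B η : ℝ} {M : ∀ N, H N → ℝ}

theorem av_add (N : ℕ) (g h : H N → ℝ) : av ω N (fun f => g f + h f) = av ω N g + av ω N h := by
  unfold av
  rw [← sum_add_distrib]
  exact sum_congr rfl fun f _ => by ring

theorem av_mul (N : ℕ) (c : ℝ) (g : H N → ℝ) : av ω N (fun f => c * g f) = c * av ω N g := by
  unfold av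
  rw [mul_sum]
  exact sum_congr rfl fun f _ => by ring

theorem av_mono {N : ℕ} (hω : ∀ f, 0 ≤ ω N f) {g h : H N → ℝ} (hgh : ∀ f, g f ≤ h f) : av ω N g ≤ av ω N h :=
  sum_le_sum fun f _ => mul_le_mul_of_nonneg_left (hgh f) (hω f)

theorem av_const {N : ℕ} (hω : ∑ f, ω N f = 1) (c : ℝ) : av ω N (fun _ => c) = c := by
  unfold av
  rw [← sum_mul, hω, one_mul]

theorem jensen {N : ℕ} (h0 : ∀ f, 0 ≤ ω N f) (h1 : ∑ f, ω N f = 1) (g : H N → ℝ) :
    (av ω N g) ^ 2 ≤ av ω N fun f => g f ^ 2 := by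
  obtain ⟨m, hm⟩ : ∃ m, m = av ω N g := ⟨_, rfl⟩
  have h2 : 0 ≤ av ω N fun f => (g f - m) ^ 2 := sum_nonneg fun f _ => mul_nonneg (h0 f) (sq_nonneg _)
  have h3 : (av ω N fun f => (g f - m) ^ 2) = (av ω N fun f => g f ^ 2) + ((-2 * m) * av ω N g + m ^ 2) := by
    rw [← av_mul, ← av_const h1 (m ^ 2), ← av_add, ← av_add]
    congr 1
    funext f
    ring
  rw [h3, ← hm] at h2
  rw [← hm]
  nlinarith

theorem big_sq (N : ℕ) (f : H N) : big L A N f ^ 2 = big L A N f := by
  unfold big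
  split_ifs <;> norm_num

theorem big_01 (N : ℕ) (f : H N) : 0 ≤ big L A N f ∧ big L A N f ≤ 1 := by
  unfold big
  split_ifs <;> norm_num

theorem log_large : ∀ᶠ N : ℕ in primes, 1 < Real.log N := by
  have h1 : Tendsto (fun N : ℕ => Real.log N) atTop atTop := Real.tendsto_log_atTop.comp tendsto_natCast_atTop_atTop
  exact (h1.eventually_gt_atTop 1).filter_mono inf_le_left

/-- the part with small central values is small -/
theorem small_part (hK : Known ω L B) (hM : Mollifier ω L B η M) (hA : B / 2 < A) :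
    Tendsto (fun N => av ω N fun f => L N f * M N f * (1 - big L A N f)) primes (𝓝 0) := by
  have h1 : Tendsto (fun N : ℕ => Real.log N ^ (-(A - B / 2))) primes (𝓝 0) := by
    have h2 : Tendsto (fun N : ℕ => Real.log N) atTop atTop := Real.tendsto_log_atTop.comp tendsto_natCast_atTop_atTop
    exact ((tendsto_rpow_neg_atTop (by linarith)).comp h2).mono_left inf_le_left
  refine squeeze_zero_norm' ?_ h1
  filter_upwards [hK.weight, hK.nonneg, hM.size, log_large] with N hw hL hs hlog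
  obtain ⟨hw0, hw1⟩ := hw
  have hl0 : 0 < Real.log N := by linarith
  obtain ⟨t, ht⟩ : ∃ t, t = Real.log N ^ (B / 2) := ⟨_, rfl⟩
  have ht0 : 0 < t := by rw [ht]; positivity
  have ht2 : t ^ 2 = Real.log N ^ B := by
    rw [ht, ← Real.rpow_mul_natCast hl0.le]
    congr 1
    push_cast
    ring
  obtain ⟨u, hu⟩ : ∃ u, u = Real.log N ^ (-A) := ⟨_, rfl⟩
  have hu0 : 0 < u := by rw [hu]; positivity
  have h3 : ∀ f, |L N f * M N f * (1 - big L A N f)| ≤ u * ((t + M N f ^ 2 * t⁻¹) / 2) := by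
    intro f
    have h4 : |M N f| ≤ (t + M N f ^ 2 * t⁻¹) / 2 := by
      have h5 : 0 ≤ (|M N f| - t) ^ 2 * t⁻¹ := by positivity
      have h6 : (|M N f| - t) ^ 2 * t⁻¹ = M N f ^ 2 * t⁻¹ - 2 * |M N f| + t := by
        rw [sub_sq, sq_abs]
        field_simp
      linarith
    unfold big
    split_ifs with h
    · rw [sub_self, mul_zero, abs_zero]
      have : 0 ≤ |M N f| := abs_nonneg _
      exact mul_nonneg hu0.le (by linarith)
    · rw [sub_zero, mul_one, abs_mul, abs_of_nonneg (hL f)]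
      rw [not_lt, ← hu] at h
      exact mul_le_mul h h4 (abs_nonneg _) hu0.le
  have h4 : ‖av ω N fun f => L N f * M N f * (1 - big L A N f)‖ ≤
      av ω N fun f => u * ((t + M N f ^ 2 * t⁻¹) / 2) := by
    rw [Real.norm_eq_abs]
    unfold av
    refine (abs_sum_le_sum_abs _ _).trans (sum_le_sum fun f _ => ?_)
    rw [abs_mul, abs_of_nonneg (hw0 f)]
    exact mul_le_mul_of_nonneg_left (h3 f) (hw0 f)
  refine h4.trans ?_
  have h5 : (av ω N fun f => u * ((t + M N f ^ 2 * t⁻¹) / 2)) =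
      u * (t / 2) + u * t⁻¹ / 2 * av ω N fun f => M N f ^ 2 := by
    rw [← av_mul, ← av_const hw1 (u * (t / 2)), ← av_add]
    congr 1
    funext f
    ring
  rw [h5]
  have h6 : u * t⁻¹ / 2 * (av ω N fun f => M N f ^ 2) ≤ u * t⁻¹ / 2 * t ^ 2 := by
    rw [ht2]
    exact mul_le_mul_of_nonneg_left hs (by positivity)
  have h7 : u * t⁻¹ / 2 * t ^ 2 = u * (t / 2) := by
    field_simp
  have h8 : Real.log N ^ (-(A - B / 2)) = u * t := by
    rw [hu, ht, ← Real.rpow_add hl0]
    congr 1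
    ring
  rw [h8]
  linarith

/-- the part with large central values -/
theorem large_part (hK : Known ω L B) (hM : Mollifier ω L B η M) (hA : B / 2 < A) :
    Tendsto (fun N => av ω N fun f => L N f * M N f * big L A N f) primes (𝓝 1) := by
  have h1 := hM.first.sub (small_part hK hM hA)
  rw [sub_zero] at h1
  refine h1.congr fun N => ?_
  rw [sub_eq_iff_eq_add, ← av_add]
  congr 1
  funext f
  ring

theorem dist2_eq (N : ℕ) : dist2 ω L A M N = (av ω N fun f => (L N f * M N f) ^ 2) +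
    ((-4) * (av ω N fun f => L N f * M N f * big L A N f) + 4 * prop ω L A N) := by
  unfold dist2 prop
  rw [← av_mul, ← av_mul, ← av_add, ← av_add]
  congr 1
  funext f
  have := big_sq (L := L) (A := A) N f
  linear_combination 4 * this

theorem forward (hK : Known ω L B) (hM : Mollifier ω L B η M) (hA : B / 2 < A) {c : ℝ} (hc : 0 < c)
    (h : ∀ᶠ N in primes, 1 / 2 + c ≤ prop ω L A N) : ∀ᶠ N in primes, c ^ 2 ≤ dist2 ω L A M N := by
  have h1 := (large_part hK hM hA).eventually_le_const (show (1 : ℝ) < 1 + c by linarith)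
  filter_upwards [h, h1, hK.weight] with N h2 h3 hw
  obtain ⟨hw0, hw1⟩ := hw
  have h4 := jensen hw0 hw1 (fun f => (L N f * M N f - 2 * big L A N f) * big L A N f)
  have h5 : (av ω N fun f => (L N f * M N f - 2 * big L A N f) * big L A N f) =
      (av ω N fun f => L N f * M N f * big L A N f) + (-2) * prop ω L A N := by
    unfold prop
    rw [← av_mul, ← av_add]
    congr 1
    funext f
    have := big_sq (L := L) (A := A) N f
    linear_combination (-2) * this
  have h6 : (av ω N fun f => ((L N f * M N f - 2 * big L A N f) * big L A N f) ^ 2) ≤ dist2 ω L A M N := by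
    refine av_mono hw0 fun f => ?_
    rw [mul_pow, big_sq]
    obtain ⟨h7, h8⟩ := big_01 (L := L) (A := A) N f
    exact mul_le_of_le_one_right (sq_nonneg _) h8
  rw [h5] at h4
  refine le_trans ?_ (h4.trans h6)
  have h7 : c ≤ -((av ω N fun f => L N f * M N f * big L A N f) + (-2) * prop ω L A N) := by linarith
  rw [← neg_sq (_ + _)]
  exact pow_le_pow_left₀ hc.le h7 2

/-- one mollifier is enough, with an explicit gain -/
theorem quant (hK : Known ω L B) (hM : Mollifier ω L B η M) (hA : B / 2 < A) {δ c : ℝ} (hc : c < (δ - η) / 4)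
    (h : ∀ᶠ N in primes, δ ≤ dist2 ω L A M N) : ∀ᶠ N in primes, 1 / 2 + c ≤ prop ω L A N := by
  have h2 := (large_part hK hM hA).eventually_const_le (show 1 - ((δ - η) / 4 - c) < (1 : ℝ) by linarith)
  filter_upwards [h, h2, hM.second] with N i1 i2 i3
  rw [dist2_eq] at i1
  linarith

theorem backward (hK : Known ω L B) (hM : Mollifier ω L B η M) (hA : B / 2 < A) (h : ¬ MoreThanHalf ω L A) {δ ε : ℝ}
    (hδ : η < δ) (hε : 0 < ε) : ∃ᶠ N in primes, dist2 ω L A M N < δ ∧ prop ω L A N < 1 / 2 + ε ∧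
      |(av ω N fun f => L N f * M N f) - 1| < ε ∧ (∀ f, 0 ≤ ω N f) ∧ ∑ f, ω N f = 1 := by
  obtain ⟨t, ht⟩ : ∃ t, t = min ((δ - η) / 16) ε := ⟨_, rfl⟩
  have ht0 : 0 < t := by
    rw [ht]
    exact lt_min (by linarith) hε
  have ht1 : t ≤ (δ - η) / 16 := by rw [ht]; exact min_le_left _ _
  have ht2 : t ≤ ε := by rw [ht]; exact min_le_right _ _
  have h1 : ∃ᶠ N in primes, prop ω L A N < 1 / 2 + t := by
    rw [Filter.Frequently]
    intro h2
    refine h ⟨t, ht0, ?_⟩
    filter_upwards [h2] with N h3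
    exact not_lt.1 h3
  have h2 := (large_part hK hM hA).eventually_const_le (show 1 - t < (1 : ℝ) by linarith)
  have h3 : ∀ᶠ N in primes, |(av ω N fun f => L N f * M N f) - 1| < ε := by
    have h4 := Metric.tendsto_nhds.1 hM.first ε hε
    filter_upwards [h4] with N h5
    rwa [Real.dist_eq] at h5
  refine (h1.and_eventually (h2.and (h3.and (hM.second.and hK.weight)))).mono ?_
  rintro N ⟨i1, i2, i3, i4, i5⟩
  refine ⟨?_, by linarith, i3, i5⟩
  rw [dist2_eq]
  linarith

theorem mono_A {A' : ℝ} (hK : Known ω L B) (hAA : A ≤ A') (h : MoreThanHalf ω L A) : MoreThanHalf ω L A' := by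
  obtain ⟨c, hc, h1⟩ := h
  refine ⟨c, hc, ?_⟩
  filter_upwards [h1, hK.weight, log_large] with N h2 hw hlog
  refine h2.trans (av_mono hw.1 fun f => ?_)
  unfold big
  have h3 : Real.log N ^ (-A') ≤ Real.log N ^ (-A) := Real.rpow_le_rpow_of_exponent_le hlog.le (by linarith)
  split_ifs with h4 h5 h5
  · exact le_rfl
  · exact absurd (lt_of_le_of_lt h3 h4) h5
  · exact zero_le_one
  · exact le_rfl

/-- The proportion (with the weights `ω`) of the `f` such that the mollified value `L(f) M(f)` is at a distance of more than `δ` from `2`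
although `L(f) > (log N) ^ (-A)`, or from `0` although `L(f) ≤ (log N) ^ (-A)`. -/
def farProp (ω L : ∀ N, H N → ℝ) (A : ℝ) (M : ∀ N, H N → ℝ) (δ : ℝ) (N : ℕ) : ℝ :=
  av ω N fun f => if |L N f * M N f - 2 * big L A N f| ≤ δ then 0 else 1

theorem far_le {N : ℕ} (hω : ∀ f, 0 ≤ ω N f) {δ : ℝ} (hδ : 0 < δ) : farProp ω L A M δ N * δ ^ 2 ≤ dist2 ω L A M N := by
  unfold farProp dist2
  rw [mul_comm, ← av_mul]
  refine av_mono hω fun f => ?_
  split_ifs with h
  · rw [mul_zero]
    exact sq_nonneg _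
  · rw [mul_one, ← sq_abs (L N f * M N f - 2 * big L A N f)]
    exact pow_le_pow_left₀ hδ.le (not_le.1 h).le 2

theorem twoValued (hK : Known ω L B) (hM : Mollifier ω L B η M) (hA : B / 2 < A) (h : ¬ MoreThanHalf ω L A) {δ : ℝ}
    (hδ : 0 < δ) (hδ1 : δ ≤ 1) (hη : η < δ ^ 3) :
    ∃ᶠ N in primes, |prop ω L A N - 1 / 2| ≤ δ ∧ farProp ω L A M δ N ≤ δ := by
  have h3 : δ ^ 3 ≤ δ ^ 2 := pow_le_pow_of_le_one hδ.le hδ1 (by norm_num)
  have h2 : δ ^ 2 ≤ δ := by nlinarith
  have hf := backward hK hM hA h hη hδ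
  refine hf.mono ?_
  rintro N ⟨i1, i2, i3, i4, i5⟩
  have j1 := far_le (L := L) (A := A) (M := M) i4 hδ
  have j2 := jensen i4 i5 (fun f => L N f * M N f - 2 * big L A N f)
  have j3 : (av ω N fun f => L N f * M N f - 2 * big L A N f) =
      (av ω N fun f => L N f * M N f) + (-2) * prop ω L A N := by
    unfold prop
    rw [← av_mul, ← av_add]
    congr 1
    funext f
    ring
  rw [j3] at j2
  have j4 : ((av ω N fun f => L N f * M N f) + (-2) * prop ω L A N) ^ 2 ≤ δ ^ 2 := by
    have : dist2 ω L A M N = av ω N fun f => (L N f * M N f - 2 * big L A N f) ^ 2 := rfl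
    rw [← this] at j2
    linarith
  have j5 := abs_le_of_sq_le_sq' j4 hδ.le
  rw [abs_lt] at i3
  refine ⟨?_, ?_⟩
  · rw [abs_le]
    constructor <;> nlinarith [j5.1, j5.2, i3.1, i3.2]
  · have j6 : farProp ω L A M δ N * δ ^ 2 ≤ δ * δ ^ 2 := by
      have : δ * δ ^ 2 = δ ^ 3 := by ring
      rw [this]
      linarith
    exact le_of_mul_le_mul_right j6 (by positivity)

theorem criterion (hK : Known ω L B) (hA : B / 2 < A) :
    [MoreThanHalf ω L A,
      ∃ δ : ℝ, 0 < δ ∧ ∀ η : ℝ, 0 < η → ∀ M : ∀ N, H N → ℝ, Mollifier ω L B η M → ∀ᶠ N in primes, δ ≤ dist2 ω L A M N,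
      ∃ η : ℝ, 0 < η ∧ ∃ M : ∀ N, H N → ℝ, Mollifier ω L B η M ∧ ∃ δ : ℝ, η < δ ∧
        ∀ᶠ N in primes, δ ≤ dist2 ω L A M N].TFAE := by
  tfae_have 1 → 2 := by
    rintro ⟨c, hc, h⟩
    exact ⟨c ^ 2, by positivity, fun η _ M hM => forward hK hM hA hc h⟩
  tfae_have 2 → 3 := by
    rintro ⟨δ, hδ, h⟩
    obtain ⟨M, hM⟩ := hK.mollifier (δ / 2) (by linarith)
    exact ⟨δ / 2, by linarith, M, hM, δ, by linarith, h (δ / 2) (by linarith) M hM⟩
  tfae_have 3 → 1 := by
    rintro ⟨η, hη, M, hM, δ, hδ, h⟩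
    exact ⟨(δ - η) / 8, by linarith, quant hK hM hA (by linarith) h⟩
  tfae_finish

/-- The mean square distance of the mollified values from the set `{0, 2}`. -/
def dist02 (ω L : ∀ N, H N → ℝ) (M : ∀ N, H N → ℝ) (N : ℕ) : ℝ :=
  av ω N fun f => min ((L N f * M N f) ^ 2) ((L N f * M N f - 2) ^ 2)

theorem dist02_le {N : ℕ} (hω : ∀ f, 0 ≤ ω N f) : dist02 ω L M N ≤ dist2 ω L A M N := by
  refine av_mono hω fun f => ?_
  unfold big
  split_ifs
  · rw [mul_one]
    exact min_le_right _ _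
  · rw [mul_zero, sub_zero]
    exact min_le_left _ _

theorem sufficient (hK : Known ω L B) (hM : Mollifier ω L B η M) {δ c : ℝ} (hc : c < (δ - η) / 4)
    (h : ∀ᶠ N in primes, δ ≤ dist02 ω L M N) (hA : B / 2 < A) : ∀ᶠ N in primes, 1 / 2 + c ≤ prop ω L A N := by
  refine quant hK hM hA hc ?_
  filter_upwards [h, hK.weight] with N h1 h2
  exact h1.trans (dist02_le h2.1)

end

end Pool.Agent.U857.CV
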